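import Pool.Agent.K1H44.AL.Plan

/-!
Task AL-ZETA: the ball for `ζ(s_k)` (Euler-Maclaurin at `N = 1024`).
-/

set_option autoImplicit false

open Finset Filter Topology

namespace Pool.Agent.K1H29.AL

open Pool.Agent.H295R3.W Pool.Agent.R751.Flower Pool.Agent.K1H44.AL

theorem log2_pos : (0 : ℝ) < Real.log 2 := Real.log_pos (by norm_num)

/-- `n ^ (-s_k) = uu n k / n` -/
theorem cpow_sk (n k : ℕ) (hn : 1 ≤ n) : (n : ℂ) ^ (-(sk k)) = uu n k / n := by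
  have hn0 : (n : ℂ) ≠ 0 := by exact_mod_cast (by omega : n ≠ 0)
  have hnr : (0 : ℝ) < n := by exact_mod_cast hn
  rw [Complex.cpow_def_of_ne_zero hn0, ← Complex.natCast_log]
  have h1 : (n : ℂ) = Complex.exp ((Real.log n : ℝ) : ℂ) := by
    rw [← Complex.ofReal_exp, Real.exp_log hnr]
    simp
  unfold uu ex
  conv_rhs => rw [h1]
  rw [div_eq_mul_inv, ← Complex.exp_neg, ← Complex.exp_add]
  congr 1
  unfold sk om hl
  have hl2 : ((Real.log 2 : ℝ) : ℂ) ≠ 0 := by exact_mod_cast log2_pos.ne'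
  push_cast
  field_simp
  ring

theorem hl_1024 : hl 1024 = 5 := by
  unfold hl
  have h : Real.log ((1024 : ℕ) : ℝ) = 10 * Real.log 2 := by
    rw [show ((1024 : ℕ) : ℝ) = (2 : ℝ) ^ (10 : ℕ) by norm_num, Real.log_pow]
    norm_num
  rw [h]
  have := log2_pos.ne'
  field_simp
  norm_num

theorem uu_1024 (k : ℕ) : uu 1024 k = 1 := by
  unfold uu ex
  rw [hl_1024]
  rw [Complex.exp_eq_one_iff]
  refine ⟨-((2 * k + 1) * 5), ?_⟩
  push_cast
  ring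

theorem in_one : In 1 ⟨PP, 0, 0⟩ := by
  unfold In
  simp

theorem mk_In (x : ℝ) (a : ℤ) (e : ℕ) (h : |2 ^ 40 * x - (a : ℝ)| ≤ (e : ℝ)) : In (x : ℂ) (K1H44.AL.mk a 0 e) := by
  unfold In K1H44.AL.mk
  have h1 : ((PP : ℤ) : ℂ) * (x : ℂ) - (((a * 2 ^ 88 : ℤ) : ℂ) + (((0 * 2 ^ 88 : ℤ)) : ℂ) * Complex.I) =
      (((2 ^ 88 * (2 ^ 40 * x - a) : ℝ)) : ℂ) := by
    unfold PP
    push_cast
    ring
  show ‖((PP : ℤ) : ℂ) * (x : ℂ) - (((a * 2 ^ 88 : ℤ) : ℂ) + (((0 * 2 ^ 88 : ℤ)) : ℂ) * Complex.I)‖ ≤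
    ((e * 2 ^ 88 : ℕ) : ℝ)
  rw [h1, Complex.norm_real, Real.norm_eq_abs, abs_mul, abs_of_pos (by norm_num : (0 : ℝ) < 2 ^ 88)]
  push_cast
  nlinarith

theorem in_the : In ((Real.pi / Real.log 2 : ℝ) : ℂ) the := by
  apply mk_In
  have l1 := Real.log_two_gt_d9
  have l2 := Real.log_two_lt_d9
  have p1 := Real.pi_gt_d20
  have p2 := Real.pi_lt_d20
  have hl := log2_pos
  rw [abs_le]
  constructor
  · have : (4983382677207 - 10000 : ℝ) / 2 ^ 40 ≤ Real.pi / Real.log 2 := by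
      rw [le_div_iff₀ hl]
      norm_num
      nlinarith
    push_cast
    norm_num at this ⊢
    linarith
  · have : Real.pi / Real.log 2 ≤ (4983382677207 + 10000 : ℝ) / 2 ^ 40 := by
      rw [div_le_iff₀ hl]
      norm_num
      nlinarith
    push_cast
    norm_num at this ⊢
    linarith

theorem in_kap : In ((Real.log 2 / Real.pi : ℝ) : ℂ) kap := by
  apply mk_In
  have l1 := Real.log_two_gt_d9
  have l2 := Real.log_two_lt_d9
  have p1 := Real.pi_gt_d20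
  have p2 := Real.pi_lt_d20
  have hp := Real.pi_pos
  rw [abs_le]
  constructor
  · have : (242591407869 - 200 : ℝ) / 2 ^ 40 ≤ Real.log 2 / Real.pi := by
      rw [le_div_iff₀ hp]
      norm_num
      nlinarith
    push_cast
    norm_num at this ⊢
    linarith
  · have : Real.log 2 / Real.pi ≤ (242591407869 + 200 : ℝ) / 2 ^ 40 := by
      rw [div_le_iff₀ hp]
      norm_num
      nlinarith
    push_cast
    norm_num at this ⊢
    linarith

theorem om_le (k : ℕ) : om k ≤ 4.5324 * (2 * k + 1) := by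
  have l1 := Real.log_two_gt_d9
  have p2 := Real.pi_lt_d20
  have hl := log2_pos
  unfold om
  rw [div_le_iff₀ hl]
  have hk : (0 : ℝ) < 2 * k + 1 := by positivity
  have : Real.pi ≤ 4.5324 * Real.log 2 := by norm_num at *; linarith
  nlinarith

theorem om_pos (k : ℕ) : 0 < om k := by
  unfold om
  have hl := log2_pos
  have := Real.pi_pos
  positivity

theorem norm_sk_add (k : ℕ) (j : ℝ) (hj : 0 ≤ j) (hj2 : j ≤ 2) :
    ‖sk k + (j : ℂ)‖ ≤ 4.5324 * (2 * k + 1) + 3 := by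
  have h1 : sk k + (j : ℂ) = ((1 + j : ℝ) : ℂ) + (om k : ℂ) * Complex.I := by
    unfold sk
    push_cast
    ring
  rw [h1]
  refine (norm_add_le _ _).trans ?_
  rw [norm_mul, Complex.norm_I, mul_one, Complex.norm_real, Complex.norm_real, Real.norm_eq_abs,
    Real.norm_eq_abs, abs_of_nonneg (by linarith), abs_of_pos (om_pos k)]
  have := om_le k
  linarith

theorem nat_div_lt (a b : ℕ) (hb : 0 < b) : (a : ℝ) / (b : ℝ) < ((a / b + 1 : ℕ) : ℝ) := by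
  have hb' : (0 : ℝ) < b := by exact_mod_cast hb
  rw [div_lt_iff₀ hb']
  have := Nat.lt_mul_div_succ a hb
  rw [mul_comm] at this
  exact_mod_cast this

theorem t_ZETA : S_ZETA := by
  intro hB hEM k z hz
  obtain ⟨b0, badd, bsub, bsmul, bdiv, _, bI, _⟩ := hB
  have hN : (1 : ℕ) ≤ 1024 := by norm_num
  have hEM1 := hEM 1024 (om k) hN (om_pos k).ne' (sk k) rfl
  have hom : (om k : ℂ) ≠ 0 := by exact_mod_cast (om_pos k).ne'
  have e1 : (((1024 : ℕ) : ℂ)) ^ (-(sk k)) = 1 / 1024 := by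
    rw [cpow_sk 1024 k hN, uu_1024]
    norm_num
  have h1024 : (((1024 : ℕ) : ℂ)) ≠ 0 := by norm_num
  have e2 : (((1024 : ℕ) : ℂ)) ^ (1 - sk k) = 1 := by
    rw [show 1 - sk k = -(sk k) + 1 by ring, Complex.cpow_add _ _ h1024, Complex.cpow_one, e1]
    norm_num
  have e3 : (((1024 : ℕ) : ℂ)) ^ (-(sk k) - 1) = 1 / 1024 ^ 2 := by
    rw [Complex.cpow_sub _ _ h1024, Complex.cpow_one, e1]
    norm_num
  have e4 : ∑ n ∈ Ico (1 : ℕ) 1024, ((n : ℕ) : ℂ) ^ (-(sk k)) = zs k := by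
    unfold zs
    apply Finset.sum_congr rfl
    intro n hn
    exact cpow_sk n k (Finset.mem_Ico.1 hn).1
  rw [e1, e2, e3, e4] at hEM1
  -- the main term
  set Mt : ℂ := zs k + ((1 : ℂ) / ((2048 : ℕ) : ℂ) + ((1 : ℂ) / ((12582912 : ℕ) : ℂ) +
    Complex.I * ((((2 * k + 1 : ℕ) : ℂ) * ((Real.pi / Real.log 2 : ℝ) : ℂ)) / ((12582912 : ℕ) : ℂ) -
      ((Real.log 2 / Real.pi : ℝ) : ℂ) / ((2 * k + 1 : ℕ) : ℂ)))) with hMt
  have hl2 : ((Real.log 2 : ℝ) : ℂ) ≠ 0 := by exact_mod_cast log2_pos.ne'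
  have hpi : ((Real.pi : ℝ) : ℂ) ≠ 0 := by exact_mod_cast Real.pi_pos.ne'
  have hk1 : ((2 * (k : ℂ) + 1)) ≠ 0 := by
    have : ((2 * k + 1 : ℕ) : ℂ) ≠ 0 := by exact_mod_cast (by omega : 2 * k + 1 ≠ 0)
    push_cast at this
    exact this
  have hMeq : zs k + 1 / (sk k - 1) + 1 / 1024 / 2 + sk k / 12 * (1 / 1024 ^ 2) = Mt := by
    have hs1 : 1 / (sk k - 1) = -(Complex.I * (((Real.log 2 / Real.pi : ℝ) : ℂ) / ((2 * k + 1 : ℕ) : ℂ))) := by
      have hsk : sk k - 1 = (om k : ℂ) * Complex.I := by unfold sk; ring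
      rw [hsk]
      have hom2 : (om k : ℂ) * Complex.I ≠ 0 := mul_ne_zero hom Complex.I_ne_zero
      rw [div_eq_iff hom2]
      unfold om
      push_cast
      have hI := Complex.I_mul_I
      field_simp
      linear_combination (1 : ℂ) * Complex.I_sq
    rw [hs1, hMt]
    unfold sk om
    push_cast
    ring
  rw [hMeq] at hEM1
  -- the ball of the main term
  set W : CB := add z (add (divN ⟨PP, 0, 0⟩ 2048) (add (divN ⟨PP, 0, 0⟩ 12582912)
    (mulI (sub (divN (smul (2 * k + 1) the) 12582912) (divN kap (2 * k + 1)))))) with hW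
  have hMW : In Mt W := by
    rw [hMt, hW]
    apply badd _ _ _ _ hz
    apply badd _ _ _ _ (bdiv 2048 1 _ (by norm_num) in_one)
    apply badd _ _ _ _ (bdiv 12582912 1 _ (by norm_num) in_one)
    apply bI
    apply bsub
    · apply bdiv 12582912 _ _ (by norm_num)
      apply bsmul
      exact in_the
    · exact bdiv (2 * k + 1) _ _ (by omega) in_kap
  have hz1 : zeB k z = ⟨W.a, W.b, W.e +
      ((45324 * (2 * k + 1) + 30000) ^ 3 * 2 ^ 128) / (10 ^ 12 * 120 * 1024 ^ 3) + 1⟩ := by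
    unfold zeB
    rw [b0]
  rw [hz1]
  unfold In at hMW ⊢
  have hPP : ((PP : ℤ) : ℂ) = ((2 ^ 128 : ℝ) : ℂ) := by
    unfold PP
    push_cast
    norm_num
  have herr : ‖((PP : ℤ) : ℂ) * (riemannZeta (sk k) - Mt)‖ ≤
      ((((45324 * (2 * k + 1) + 30000) ^ 3 * 2 ^ 128) / (10 ^ 12 * 120 * 1024 ^ 3) + 1 : ℕ) : ℝ) := by
    rw [norm_mul, hPP, Complex.norm_real, Real.norm_eq_abs, abs_of_pos (by norm_num)]
    have n0 := norm_sk_add k 0 le_rfl (by norm_num)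
    have n1 := norm_sk_add k 1 (by norm_num) (by norm_num)
    have n2 := norm_sk_add k 2 (by norm_num) (by norm_num)
    simp only [Complex.ofReal_zero, add_zero, Complex.ofReal_one] at n0 n1
    have n2' : ‖sk k + 2‖ ≤ 4.5324 * (2 * k + 1) + 3 := by
      have : ((2 : ℝ) : ℂ) = 2 := by norm_num
      rw [this] at n2
      exact n2
    set Q : ℝ := 4.5324 * (2 * k + 1) + 3 with hQ
    have hQ0 : 0 ≤ Q := by rw [hQ]; positivity
    have hprod : ‖sk k‖ * ‖sk k + 1‖ * ‖sk k + 2‖ ≤ Q ^ 3 := by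
      have i1 : ‖sk k‖ * ‖sk k + 1‖ ≤ Q * Q := mul_le_mul n0 n1 (norm_nonneg _) hQ0
      calc ‖sk k‖ * ‖sk k + 1‖ * ‖sk k + 2‖ ≤ (Q * Q) * Q :=
            mul_le_mul i1 n2' (norm_nonneg _) (by positivity)
        _ = Q ^ 3 := by ring
    have hlt : ((((45324 * (2 * k + 1) + 30000) ^ 3 * 2 ^ 128 : ℕ)) : ℝ) / ((10 ^ 12 * 120 * 1024 ^ 3 : ℕ) : ℝ) <
        ((((45324 * (2 * k + 1) + 30000) ^ 3 * 2 ^ 128) / (10 ^ 12 * 120 * 1024 ^ 3) + 1 : ℕ) : ℝ) :=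
      nat_div_lt _ _ (by norm_num)
    refine le_trans ?_ hlt.le
    calc (2 : ℝ) ^ 128 * ‖riemannZeta (sk k) - Mt‖
        ≤ 2 ^ 128 * (‖sk k‖ * ‖sk k + 1‖ * ‖sk k + 2‖ / (120 * ((1024 : ℕ) : ℝ) ^ 3)) := by gcongr
      _ ≤ 2 ^ 128 * (Q ^ 3 / (120 * ((1024 : ℕ) : ℝ) ^ 3)) := by gcongr
      _ = ((((45324 * (2 * k + 1) + 30000) ^ 3 * 2 ^ 128 : ℕ)) : ℝ) / ((10 ^ 12 * 120 * 1024 ^ 3 : ℕ) : ℝ) := by
        rw [hQ]
        push_cast
        ring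
  have hfin : ((PP : ℤ) : ℂ) * riemannZeta (sk k) - (((W.a : ℤ) : ℂ) + ((W.b : ℤ) : ℂ) * Complex.I) =
      (((PP : ℤ) : ℂ) * Mt - (((W.a : ℤ) : ℂ) + ((W.b : ℤ) : ℂ) * Complex.I)) +
      ((PP : ℤ) : ℂ) * (riemannZeta (sk k) - Mt) := by ring
  show ‖((PP : ℤ) : ℂ) * riemannZeta (sk k) - (((W.a : ℤ) : ℂ) + ((W.b : ℤ) : ℂ) * Complex.I)‖ ≤
    ((W.e + ((45324 * (2 * k + 1) + 30000) ^ 3 * 2 ^ 128) / (10 ^ 12 * 120 * 1024 ^ 3) + 1 : ℕ) : ℝ)
  rw [hfin]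
  refine (norm_add_le _ _).trans ?_
  rw [show W.e + ((45324 * (2 * k + 1) + 30000) ^ 3 * 2 ^ 128) / (10 ^ 12 * 120 * 1024 ^ 3) + 1 =
    W.e + (((45324 * (2 * k + 1) + 30000) ^ 3 * 2 ^ 128) / (10 ^ 12 * 120 * 1024 ^ 3) + 1) by ring,
    Nat.cast_add W.e]
  exact add_le_add hMW herr

end Pool.Agent.K1H29.AL
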